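import Mathlib
import Pool.Agent.Q90.HilbModDefs
import Pool.Agent.Q90.HilbMod2

/-!
# Ternary hereditary subspaces of Hilbert C*-modules are linking hereditary

The definitions (Hilbert C*-modules, ternary subspaces, `B_F`, `K(F)`, the reduced linking algebras
and the two notions of heredity) are in `Pool.Agent.Q90.HilbModDefs`.
-/

set_option autoImplicit false

namespace Pool.Agent.Results.MP_7e9539_an.HereditarySubspaces

open Q90 Q90.HilbertModule

/-- **Ternary hereditary subspaces are linking hereditary** (positive answer to Q1).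

Let `B` be a C*-algebra, `E` a Hilbert `B`-module and `F ⊆ E` a closed ternary subspace. If `F` is
ternary hereditary in `E` (`F⟨E, F⟩ ⊆ F`), then `F` is linking hereditary in `E`: the reduced
linking algebra `L_F` is a hereditary subalgebra of `L_E` (`L_F L_E L_F ⊆ L_F`). -/
theorem result (B E : Type*) [NonUnitalCStarAlgebra B] [PartialOrder B] [StarOrderedRing B]
    [NormedAddCommGroup E] [NormedSpace ℂ E] [CompleteSpace E] (H : HilbertModule B E)
    (F : Submodule ℂ E) (hF : H.IsTernary F) (hH : H.IsTernaryHereditary F) :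
    H.IsLinkingHereditary F := by
  rintro R ⟨b, hb, x, hx, y, hy, k, hk, hR⟩ S ⟨b', hb', x', -, y', -, k', hk', hS⟩
    T ⟨b'', hb'', x'', hx'', y'', hy'', k'', hk'', hT⟩
  -- the `(1, 2)` entry
  obtain ⟨w3, hw3, hw3z⟩ := row_mem (H := H) hF.1
    (φ := (ContinuousLinearMap.mul ℂ B b).comp (H.innerCLM x')) (by
      intro f hf f' hf'
      refine ⟨H.act f' (H.inner f x' * star b), act_mul_mem hF hH hf' _ (H.star_mem hb),
        fun z => ?_⟩
      change b * H.inner x' (H.theta f f' z) = _
      rw [theta_apply, H.inner_act, inner_act_left, star_mul, star_star, H.star_inner,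
        mul_assoc]) hk''
  obtain ⟨w4, hw4, hw4z⟩ := row_mem (H := H) hF.1
    (φ := (H.innerCLM x).comp k') (by
      intro f hf f' hf'
      refine ⟨H.act f' (H.inner (k' f) x), hH f' hf' _ x hx, fun z => ?_⟩
      change H.inner x (k' (H.theta f f' z)) = _
      rw [theta_apply, H.compact_act hk', H.inner_act, inner_act_left, H.star_inner]) hk''
  have hw3z' : ∀ z, b * H.inner x' (k'' z) = H.inner w3 z := hw3z
  have hw4z' : ∀ z, H.inner x (k' (k'' z)) = H.inner w4 z := hw4z
  refine ⟨b * (b' * b'') + b * H.inner x' y'' + H.inner x y' * b'' + H.inner x (k' y''), ?_,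
    H.act x'' (star b' * star b) + H.act x'' (H.inner y' x) + w3 + w4, ?_,
    H.act y (b' * b'') + H.act y (H.inner x' y'') + H.act (k y') b'' + k (k' y''), ?_,
    H.theta (H.act y b') x'' + H.theta (k y') x'' + H.theta y x' * k'' + k * k' * k'', ?_, ?_⟩
  · refine Submodule.add_mem _ (Submodule.add_mem _ (Submodule.add_mem _ ?_ ?_) ?_) ?_
    · exact mul_mul_mem hF hH hb b' hb''
    · exact mul_inner_mem hH hb x' hy''
    · exact inner_mul_mem hH hb'' y' hx
    · exact inner_compact_mem hF hH hk' hx hy''
  · refine F.add_mem (F.add_mem (F.add_mem ?_ ?_) hw3) hw4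
    · exact act_mul_mem hF hH hx'' _ (H.star_mem hb)
    · exact hH x'' hx'' y' x hx
  · refine F.add_mem (F.add_mem (F.add_mem ?_ ?_) ?_) ?_
    · exact act_mul_mem hF hH hy b' hb''
    · exact hH y hy x' y'' hy''
    · exact compact_act_mem hF hH hk y' hb''
    · exact compact_compact_mem hF hH hk hk' hy''
  · refine Submodule.add_mem _ (Submodule.add_mem _ (Submodule.add_mem _ ?_ ?_) ?_) ?_
    · exact theta_act_mem hF hH hy b' hx''
    · exact theta_compact_mem hF hH hk y' hx''
    · exact theta_mul_mem hH hk'' hy x'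
    · exact compact_mul_mem hF hH hk hk' hk''
  · intro c z
    obtain ⟨hT1, hT2⟩ := hT c z
    obtain ⟨hS1, hS2⟩ := hS (T (c, z)).1 (T (c, z)).2
    obtain ⟨hR1, hR2⟩ := hR (S (T (c, z))).1 (S (T (c, z))).2
    have e1 : (R * S * T) (c, z) = R (S (T (c, z))) := rfl
    have e2 : S ((T (c, z)).1, (T (c, z)).2) = S (T (c, z)) := rfl
    have e3 : R ((S (T (c, z))).1, (S (T (c, z))).2) = R (S (T (c, z))) := rfl
    rw [e2] at hS1 hS2
    rw [e3] at hR1 hR2
    rw [e1]
    constructor
    · rw [hR1, hS1, hS2, hT1, hT2]
      simp only [H.inner_add, H.inner_add_left, H.inner_act, inner_act_left, mul_add, add_mul,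
        map_add, star_mul, star_star, ← hw3z', ← hw4z', H.compact_act hk', H.star_inner,
        mul_assoc]
      abel
    · rw [hR2, hS1, hS2, hT1, hT2]
      change _ = _ + (H.theta (H.act y b') x'' z + H.theta (k y') x'' z + H.theta y x' (k'' z) +
        k (k' (k'' z)))
      have hkE : ∀ z b, k (H.act z b) = H.act (k z) b := by
        have hle : k ∈ H.compacts (⊤ : Submodule ℂ E) := by
          refine Submodule.topologicalClosure_mono (Submodule.span_mono ?_) hk
          rintro T ⟨x, _, y, _, h⟩
          exact ⟨x, Submodule.mem_top, y, Submodule.mem_top, h⟩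
        exact fun z b => H.compact_act hle z b
      simp only [theta_apply, H.inner_add, H.inner_act, mul_add, map_add, H.act_add, H.add_act,
        H.act_mul, H.compact_act hk', hkE]
      abel

end Pool.Agent.Results.MP_7e9539_an.HereditarySubspaces
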